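import Pool.Agent.W497.CC.Defs

set_option autoImplicit false

namespace Pool.Agent.W497.CC

open Pool.Agent.W497.FS

open scoped Classical in
lemma card_below {P : Type} [Fintype P] [PartialOrder P] {dim : P → ℕ} (hP : IsCubical P dim)
    (c : P) : Fintype.card {x : P // x ≤ c} = 3 ^ dim c := by
  obtain ⟨e, -⟩ := hP c
  rw [Fintype.card_congr e]
  simp

open scoped Classical in
/-- dimension zero means minimal -/
lemma dim_zero_iff {P : Type} [Fintype P] [PartialOrder P] {dim : P → ℕ} (hP : IsCubical P dim)
    (v : P) : dim v = 0 ↔ ∀ x, x ≤ v → x = v := by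
  constructor
  · intro h x hx
    have h1 := card_below hP v
    rw [h, pow_zero] at h1
    have := Fintype.card_le_one_iff.mp h1.le ⟨x, hx⟩ ⟨v, le_refl v⟩
    exact congrArg Subtype.val this
  · intro h
    have h1 := card_below hP v
    have h2 : Fintype.card {x : P // x ≤ v} = 1 := by
      rw [Fintype.card_eq_one_iff]
      refine ⟨⟨v, le_refl v⟩, ?_⟩
      rintro ⟨x, hx⟩
      exact Subtype.ext (h x hx)
    rw [h2] at h1
    by_contra hne
    have : 3 ^ dim v ≠ 1 := by
      intro h3
      rcases Nat.pow_eq_one.mp h3 with h4 | h4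
      · omega
      · exact hne h4
    exact this h1.symm

open scoped Classical in
/-- a vertex of `c` is a face without free coordinate -/
lemma vertex_iff {P : Type} [Fintype P] [PartialOrder P] {dim : P → ℕ} (hP : IsCubical P dim)
    (c : P) (e : {x : P // x ≤ c} ≃ (Fin (dim c) → Option Bool))
    (he : ∀ x y, x.1 ≤ y.1 ↔ CubeLE (e x) (e y)) (x : {x : P // x ≤ c}) :
    dim x.1 = 0 ↔ ∀ i, e x i ≠ none := by
  rw [dim_zero_iff hP]
  constructor
  · intro h i hi
    -- the face with coordinate `i` fixed
    let g : Fin (dim c) → Option Bool := Function.update (e x) i (some true)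
    have hg : CubeLE g (e x) := by
      intro j
      by_cases hj : j = i
      · subst hj; exact Or.inl hi
      · right; simp [g, Function.update_of_ne hj]
    have h1 : (e.symm g).1 ≤ x.1 := by
      rw [he]; simpa using hg
    have h2 := h _ h1
    have h3 : e.symm g = x := Subtype.ext h2
    have h4 : g = e x := by rw [← h3]; simp
    have h5 := congrFun h4 i
    simp [g, hi] at h5
  · intro h y hy
    have hyc : y ≤ c := hy.trans x.2
    have h1 : CubeLE (e ⟨y, hyc⟩) (e x) := (he ⟨y, hyc⟩ x).mp hy
    have h2 : e ⟨y, hyc⟩ = e x := by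
      funext i
      rcases h1 i with h3 | h3
      · exact absurd h3 (h i)
      · exact h3.symm
    have h3 := e.injective h2
    exact congrArg Subtype.val h3

open scoped Classical in
/-- a cube of dimension `r` has `2^r` vertices -/
lemma card_vertices {P : Type} [Fintype P] [PartialOrder P] {dim : P → ℕ} (hP : IsCubical P dim)
    (c : P) : (Finset.univ.filter (fun v : P => dim v = 0 ∧ v ≤ c)).card = 2 ^ dim c := by
  obtain ⟨e, he⟩ := hP c
  have key : (Finset.univ.filter (fun v : P => dim v = 0 ∧ v ≤ c)).card
      = Fintype.card (Fin (dim c) → Bool) := by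
    rw [← Finset.card_univ]
    symm
    refine Finset.card_bij (fun b _ => (e.symm (fun i => some (b i))).1) ?_ ?_ ?_
    · intro b _
      simp only [Finset.mem_filter, Finset.mem_univ, true_and]
      refine ⟨?_, (e.symm (fun i => some (b i))).2⟩
      rw [vertex_iff hP c e he]
      intro i
      simp
    · intro b _ b' _ h
      have h1 : e.symm (fun i => some (b i)) = e.symm (fun i => some (b' i)) := Subtype.ext h
      have h2 := e.symm.injective h1
      funext i
      have := congrFun h2 i
      simpa using this
    · intro v hv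
      simp only [Finset.mem_filter, Finset.mem_univ, true_and] at hv
      have h1 := (vertex_iff hP c e he ⟨v, hv.2⟩).mp hv.1
      refine ⟨fun i => (e ⟨v, hv.2⟩ i).getD true, Finset.mem_univ _, ?_⟩
      have h2 : (fun i => some ((e ⟨v, hv.2⟩ i).getD true)) = e ⟨v, hv.2⟩ := by
        funext i
        obtain ⟨b, hb⟩ := Option.ne_none_iff_exists'.mp (h1 i)
        simp [hb]
      rw [h2]; simp
  rw [key]; simp

open scoped Classical in
/-- the number of cubes between a vertex `v` and a cube `c` -/
lemma card_between {P : Type} [Fintype P] [PartialOrder P] {dim : P → ℕ} (hP : IsCubical P dim)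
    (c v : P) (hv : dim v = 0) (hvc : v ≤ c) :
    (Finset.univ.filter (fun x : P => v ≤ x ∧ x ≤ c)).card = 2 ^ dim c := by
  obtain ⟨e, he⟩ := hP c
  have h1 := (vertex_iff hP c e he ⟨v, hvc⟩).mp hv
  set b := e ⟨v, hvc⟩ with hb
  have key : (Finset.univ.filter (fun x : P => v ≤ x ∧ x ≤ c)).card
      = Fintype.card (Fin (dim c) → Bool) := by
    rw [← Finset.card_univ]
    symm
    refine Finset.card_bij (fun s _ => (e.symm (fun i => if s i then none else b i)).1) ?_ ?_ ?_
    · intro s _
      simp only [Finset.mem_filter, Finset.mem_univ, true_and]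
      refine ⟨?_, (e.symm _).2⟩
      have : (⟨v, hvc⟩ : {x : P // x ≤ c}).1 ≤ (e.symm (fun i => if s i then none else b i)).1 := by
        rw [he]
        intro i
        by_cases hs : s i
        · left; simp [hs]
        · right; simp [hs, hb]
      exact this
    · intro s _ s' _ h
      have h1' : e.symm (fun i => if s i then none else b i)
          = e.symm (fun i => if s' i then none else b i) := Subtype.ext h
      have h2 := e.symm.injective h1'
      funext i
      have h3 := congrFun h2 i
      have h4 := h1 i
      cases hs : s i <;> cases hs' : s' i <;> simp [hs, hs'] at h3 ⊢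
      · exact h4 h3
      · exact h4 h3.symm
    · intro x hx
      simp only [Finset.mem_filter, Finset.mem_univ, true_and] at hx
      have h2 : CubeLE b (e ⟨x, hx.2⟩) := (he ⟨v, hvc⟩ ⟨x, hx.2⟩).mp hx.1
      refine ⟨fun i => decide (e ⟨x, hx.2⟩ i = none), Finset.mem_univ _, ?_⟩
      have h3 : (fun i => if (decide (e ⟨x, hx.2⟩ i = none)) = true then none else b i)
          = e ⟨x, hx.2⟩ := by
        funext i
        by_cases hi : e ⟨x, hx.2⟩ i = none
        · simp [hi]
        · rcases h2 i with h4 | h4
          · exact absurd h4 hi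
          · rw [if_neg (by simpa using hi)]; exact h4.symm
      have h4 := congrArg e.symm h3
      rw [Equiv.symm_apply_apply] at h4
      exact congrArg Subtype.val h4
  rw [key]; simp

open scoped Classical in
/-- the dimension of a cube is the number of vertices of its face in the link -/
lemma dim_eq_card {P : Type} [Fintype P] [PartialOrder P] {dim : P → ℕ} (hP : IsCubical P dim)
    (v : P) (hv : dim v = 0) {n : ℕ} (S : Finset (Finset (Fin n)))
    (hS : ∀ F ∈ S, ∀ G : Finset (Fin n), G ⊆ F → G ∈ S)
    (e : {x : P // v ≤ x} ≃ {F : Finset (Fin n) // F ∈ S})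
    (he : ∀ x y, x.1 ≤ y.1 ↔ (e x).1 ⊆ (e y).1) (c : {x : P // v ≤ x}) :
    (e c).1.card = dim c.1 := by
  have h1 := card_between hP c.1 v hv c.2
  have key : (Finset.univ.filter (fun x : P => v ≤ x ∧ x ≤ c.1)).card = ((e c).1.powerset).card := by
    symm
    refine Finset.card_bij (fun G hG => (e.symm ⟨G, hS _ (e c).2 G (Finset.mem_powerset.mp hG)⟩).1)
      ?_ ?_ ?_
    · intro G hG
      simp only [Finset.mem_filter, Finset.mem_univ, true_and]
      refine ⟨(e.symm _).2, ?_⟩
      rw [he]
      simpa using Finset.mem_powerset.mp hG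
    · intro G hG G' hG' h
      have h2 := e.symm.injective (Subtype.ext h)
      exact congrArg Subtype.val h2
    · intro x hx
      simp only [Finset.mem_filter, Finset.mem_univ, true_and] at hx
      refine ⟨(e ⟨x, hx.1⟩).1, ?_, ?_⟩
      · rw [Finset.mem_powerset]
        exact (he ⟨x, hx.1⟩ c).mp hx.2
      · simp
  rw [key, Finset.card_powerset] at h1
  exact Nat.pow_right_injective (le_refl 2) h1

open scoped Classical in
/-- the Euler characteristic is the sum over the vertices of the `omega` of the links -/
theorem chi_eq {P : Type} [Fintype P] [PartialOrder P] {dim : P → ℕ} (hP : IsCubical P dim)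
    (nn : P → ℕ) (S : ∀ v : P, Finset (Finset (Fin (nn v))))
    (hL : ∀ v, dim v = 0 → IsLink v (S v))
    (hS : ∀ v, dim v = 0 → ∀ F ∈ S v, ∀ G : Finset (Fin (nn v)), G ⊆ F → G ∈ S v) :
    ((chi P dim : ℤ) : ℚ) = ∑ v ∈ Finset.univ.filter (fun v : P => dim v = 0),
      Pool.Agent.W497.FS.omega (S v) := by
  have h1 : ((chi P dim : ℤ) : ℚ) = ∑ c : P, ∑ v ∈ Finset.univ.filter (fun v : P => dim v = 0),
      (if v ≤ c then (-1 : ℚ) ^ dim c / 2 ^ dim c else 0) := by
    unfold chi
    push_cast
    refine Finset.sum_congr rfl fun c _ => ?_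
    rw [← Finset.sum_filter, Finset.filter_filter, Finset.sum_const, card_vertices hP c,
      nsmul_eq_mul]
    push_cast
    field_simp
  rw [h1, Finset.sum_comm]
  refine Finset.sum_congr rfl fun v hv => ?_
  have hv0 : dim v = 0 := (Finset.mem_filter.mp hv).2
  obtain ⟨e, he⟩ := hL v hv0
  have hd := dim_eq_card hP v hv0 (S v) (hS v hv0) e he
  rw [← Finset.sum_filter]
  unfold Pool.Agent.W497.FS.omega
  symm
  refine Finset.sum_bij (fun F hF => (e.symm ⟨F, hF⟩).1) ?_ ?_ ?_ ?_
  · intro F hF
    simp only [Finset.mem_filter, Finset.mem_univ, true_and]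
    exact (e.symm ⟨F, hF⟩).2
  · intro F hF F' hF' h
    have h2 := e.symm.injective (Subtype.ext h)
    exact congrArg Subtype.val h2
  · intro c hc
    simp only [Finset.mem_filter, Finset.mem_univ, true_and] at hc
    exact ⟨(e ⟨c, hc⟩).1, (e ⟨c, hc⟩).2, by simp⟩
  · intro F hF
    have := hd (e.symm ⟨F, hF⟩)
    rw [Equiv.apply_symm_apply] at this
    rw [this]

end Pool.Agent.W497.CC
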