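import Pool.Agent.W497.FS.Sphere

/-!
# Finite cubical complexes

A finite cubical complex is given by its finite poset `P` of (nonempty, closed) cubes, ordered by
inclusion, and the dimension function `dim`.
-/

set_option autoImplicit false

namespace Pool.Agent.W497.CC

open Pool.Agent.W497.FS

/-- A face of the cube `[0,1]^r` is a function `Fin r → Option Bool`: the coordinate `i` is fixed to
one of two values, or free (`none`). `CubeLE f g` says that the face `f` is contained in `g`. -/
def CubeLE {r : ℕ} (f g : Fin r → Option Bool) : Prop := ∀ i, g i = none ∨ g i = f i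

/-- `P` is the poset of cubes of a finite cubical complex: the faces of every cube `c` form the face
poset of the cube `[0,1]^(dim c)`. -/
def IsCubical (P : Type) [Fintype P] [PartialOrder P] (dim : P → ℕ) : Prop :=
  ∀ c : P, ∃ e : {x : P // x ≤ c} ≃ (Fin (dim c) → Option Bool),
    ∀ x y, x.1 ≤ y.1 ↔ CubeLE (e x) (e y)

/-- `S` is the link of the vertex `v`: the cubes which contain `v`, ordered by inclusion, correspond
to the faces of the simplicial complex `S` (`v` itself to the empty face). -/
def IsLink {P : Type} [PartialOrder P] (v : P) {n : ℕ} (S : Finset (Finset (Fin n))) : Prop :=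
  ∃ e : {x : P // v ≤ x} ≃ {F : Finset (Fin n) // F ∈ S}, ∀ x y, x.1 ≤ y.1 ↔ (e x).1 ⊆ (e y).1

/-- the Euler characteristic -/
def chi (P : Type) [Fintype P] (dim : P → ℕ) : ℤ := ∑ c : P, (-1 : ℤ) ^ dim c

end Pool.Agent.W497.CC
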